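import Mathlib

/-!
# Fast contract-signing protocols in which every party pays a bounded amount

Let `2 ^ D ≤ N < 2 ^ (D + 1)`. Contract `n` first visits, in increasing order, all parties except
the `D` parties `u 1, …, u (D - 1), n`, where `u t = 2 ^ t + ((n + 1) mod 2 ^ t)`, and then, on the
last `D` days, `u 1, u 2, …, u (D - 1), n`. The party `u t` determines `u (t - 1)`, so in the last
`D` days the contracts are distributed along a binary tree; and as every contract leaves out just one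
or two (or no) parties between `2 ^ t` and `2 ^ (t + 1)`, at most three different bundles pass a party
before that.
-/

set_option autoImplicit false

namespace Pool.Agent.Results.MP_e6c168_lc.BoundedCost

open Finset Filter Topology

/-- A fast protocol for `N` parties: `P n d` is the party which holds contract `n` on day `d`,
`0 ≤ d ≤ N - 1`; every `P n` is a permutation, and contract `n` is held by party `n` on day
`N - 1`. -/
def IsFast {N : ℕ} (P : Fin N → Equiv.Perm (Fin N)) : Prop :=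
  ∀ n d : Fin N, (d : ℕ) = N - 1 → P n d = n

/-- The amount paid by party `i`: the number of pairs `(d, j)`, `0 ≤ d ≤ N - 2`, such that
`P n d = i` and `P n (d + 1) = j` for at least one contract `n`. -/
noncomputable def cost {N : ℕ} (P : Fin N → Equiv.Perm (Fin N)) (i : Fin N) : ℕ :=
  {p : Fin N × Fin N | ∃ (h : (p.1 : ℕ) + 1 < N) (n : Fin N),
    P n p.1 = i ∧ P n ⟨(p.1 : ℕ) + 1, h⟩ = p.2}.ncard

/-- `M(N)`: the least `m` such that in some fast protocol for `N` parties every party pays at most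
`m`. -/
noncomputable def M (N : ℕ) : ℕ :=
  sInf {m : ℕ | ∃ P : Fin N → Equiv.Perm (Fin N), IsFast P ∧ ∀ i, cost P i ≤ m}

/-- the party which holds contract `n` on day `N - D + t - 1` -/
def u (n t : ℕ) : ℕ := 2 ^ t + (n + 1) % 2 ^ t

lemma u_ge (n t : ℕ) : 2 ^ t ≤ u n t := Nat.le_add_right _ _

lemma u_lt (n t : ℕ) : u n t < 2 ^ (t + 1) := by
  unfold u
  have := Nat.mod_lt (n + 1) (show 0 < 2 ^ t by positivity)
  rw [pow_succ]; omega

lemma u_pos (n t : ℕ) : 0 < u n t :=
  lt_of_lt_of_le (by positivity) (u_ge n t)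

lemma log_u (n t : ℕ) : Nat.log 2 (u n t) = t :=
  (Nat.log_eq_iff (Or.inr ⟨by norm_num, (u_pos n t).ne'⟩)).2 ⟨u_ge n t, u_lt n t⟩

lemma u_inj {n s t : ℕ} (h : u n s = u n t) : s = t := by
  rw [← log_u n s, ← log_u n t, h]

lemma u_ne {n t : ℕ} (ht : 1 ≤ t) : u n t ≠ n := by
  intro h
  have h1 := u_ge n t
  have h2 := u_lt n t
  have h3 : n % 2 ^ t = n - 2 ^ t := by
    rw [h] at h1 h2
    rw [Nat.mod_eq_sub_mod h1, Nat.mod_eq_of_lt]
    rw [pow_succ] at h2; omega
  have h4 : (n + 1) % 2 ^ t = n % 2 ^ t := by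
    unfold u at h; omega
  have h5 : 2 ≤ 2 ^ t := by
    calc 2 = 2 ^ 1 := by norm_num
      _ ≤ 2 ^ t := Nat.pow_le_pow_right (by norm_num) ht
  have h6 : (n + 1) % 2 ^ t = (n % 2 ^ t + 1) % 2 ^ t := by
    rw [Nat.add_mod, Nat.mod_eq_of_lt (show 1 < 2 ^ t by omega)]
  rw [h4] at h6
  have h7 := Nat.mod_lt n (show 0 < 2 ^ t by positivity)
  rcases Nat.lt_or_ge (n % 2 ^ t + 1) (2 ^ t) with h8 | h8
  · rw [Nat.mod_eq_of_lt h8] at h6; omega
  · have h9 : n % 2 ^ t + 1 = 2 ^ t := by omega
    rw [h9, Nat.mod_self] at h6; omega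

/-- two consecutive numbers are not both of the form `u n t` -/
lemma u_succ {n s t : ℕ} (hs : 1 ≤ s) (h : u n t = u n s + 1) : False := by
  have h1 := u_ge n s
  have h2 := u_lt n s
  have h3 := u_ge n t
  have h4 := u_lt n t
  have hst : s < t := by
    by_contra hcon
    have : 2 ^ (t + 1) ≤ 2 ^ (s + 1) := Nat.pow_le_pow_right (by norm_num) (by omega)
    rcases Nat.eq_or_lt_of_le (not_lt.1 hcon) with h5 | h5
    · rw [h5] at h; omega
    · have : 2 ^ (t + 1) ≤ 2 ^ s := Nat.pow_le_pow_right (by norm_num) (by omega)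
      omega
  have h5 : 2 ^ (s + 1) ≤ 2 ^ t := Nat.pow_le_pow_right (by norm_num) (by omega)
  have h6 : u n s = 2 ^ (s + 1) - 1 ∧ u n t = 2 ^ t ∧ 2 ^ t = 2 ^ (s + 1) := by omega
  have h7 : (n + 1) % 2 ^ t = 0 := by
    have := h6.2.1; unfold u at this; omega
  have h8 : (n + 1) % 2 ^ s = 2 ^ s - 1 := by
    have := h6.1; unfold u at this; rw [pow_succ] at this; omega
  have h9 : (n + 1) % 2 ^ s = 0 := by
    have : 2 ^ s ∣ n + 1 := dvd_trans (pow_dvd_pow 2 (by omega)) (Nat.dvd_of_mod_eq_zero h7)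
    exact Nat.mod_eq_zero_of_dvd this
  have h10 : 2 ≤ 2 ^ s := by
    calc 2 = 2 ^ 1 := by norm_num
      _ ≤ 2 ^ s := Nat.pow_le_pow_right (by norm_num) hs
  omega

/-- the last `D` parties visited by contract `n` -/
def U (D n : ℕ) : Finset ℕ := insert n ((Icc 1 (D - 1)).image (u n))

lemma mem_U {D n x : ℕ} : x ∈ U D n ↔ x = n ∨ ∃ t, 1 ≤ t ∧ t ≤ D - 1 ∧ u n t = x := by
  simp only [U, mem_insert, mem_image, mem_Icc, and_assoc]

lemma card_U {D n : ℕ} (hD : 1 ≤ D) : (U D n).card = D := by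
  unfold U
  rw [card_insert_of_notMem, card_image_of_injective _ (fun a b h => u_inj h), Nat.card_Icc]
  · omega
  · intro h
    obtain ⟨t, ht, h⟩ := mem_image.1 h
    exact u_ne (mem_Icc.1 ht).1 h

/-- the number of parties before `x` which are not among the last `D` ones -/
def c (D n x : ℕ) : ℕ := ((range x).filter (· ∉ U D n)).card

lemma c_mono {D n x y : ℕ} (h : x ≤ y) : c D n x ≤ c D n y :=
  card_le_card (filter_subset_filter _ (range_subset_range.2 h))

lemma c_succ {D n x : ℕ} (h : x ∉ U D n) : c D n (x + 1) = c D n x + 1 := by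
  unfold c
  rw [range_add_one, filter_insert, if_pos h, card_insert_of_notMem]
  simp

lemma c_lt {D n x y : ℕ} (hx : x ∉ U D n) (h : x < y) : c D n x < c D n y := by
  have := c_mono (D := D) (n := n) (show x + 1 ≤ y from h)
  rw [c_succ hx] at this
  omega

lemma c_add {D n x : ℕ} : c D n x + ((range x).filter (· ∈ U D n)).card = x := by
  unfold c
  have := card_filter_add_card_filter_not (s := range x) (fun y => y ∈ U D n)
  rw [card_range] at this
  omega

lemma U_sub {N D n : ℕ} (hN : 2 ^ D ≤ N) (hn : n < N) : U D n ⊆ range N := by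
  intro x hx
  rcases mem_U.1 hx with h | ⟨t, h1, h2, h3⟩
  · rw [h]; exact mem_range.2 hn
  · rw [← h3, mem_range]
    calc u n t < 2 ^ (t + 1) := u_lt n t
      _ ≤ 2 ^ D := Nat.pow_le_pow_right (by norm_num) (by omega)
      _ ≤ N := hN

lemma c_N {N D n : ℕ} (hD : 1 ≤ D) (hN : 2 ^ D ≤ N) (hn : n < N) : c D n N = N - D := by
  have h1 := c_add (D := D) (n := n) (x := N)
  have h2 : (range N).filter (· ∈ U D n) = U D n := by
    ext x
    simp only [mem_filter, mem_range]
    exact ⟨fun h => h.2, fun h => ⟨mem_range.1 (U_sub hN hn h), h⟩⟩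
  rw [h2, card_U hD] at h1
  omega

/-- the day on which contract `n` visits party `x` -/
def day (N D n x : ℕ) : ℕ :=
  if x ∈ U D n then (if x = n then N - 1 else N - D + (Nat.log 2 x - 1)) else c D n x

lemma day_self {N D n : ℕ} : day N D n n = N - 1 := by
  unfold day
  rw [if_pos (mem_U.2 (Or.inl rfl)), if_pos rfl]

lemma day_u {N D n t : ℕ} (h1 : 1 ≤ t) (h2 : t ≤ D - 1) : day N D n (u n t) = N - D + (t - 1) := by
  unfold day
  rw [if_pos (mem_U.2 (Or.inr ⟨t, h1, h2, rfl⟩)), if_neg (u_ne h1), log_u]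

lemma day_out {N D n x : ℕ} (h : x ∉ U D n) : day N D n x = c D n x := by
  unfold day
  rw [if_neg h]

lemma day_out_lt {N D n x : ℕ} (hD : 1 ≤ D) (hN : 2 ^ D ≤ N) (hn : n < N) (hx : x < N)
    (h : x ∉ U D n) : day N D n x < N - D := by
  rw [day_out h, ← c_N hD hN hn]
  exact c_lt h hx

lemma day_in_ge {N D n x : ℕ} (hD : 1 ≤ D) (h : x ∈ U D n) : N - D ≤ day N D n x := by
  rcases mem_U.1 h with h | ⟨t, h1, h2, h3⟩
  · rw [h, day_self]; omega
  · rw [← h3, day_u h1 h2]; omega

lemma D_lt {D N : ℕ} (hN : 2 ^ D ≤ N) : D < N := lt_of_lt_of_le Nat.lt_two_pow_self hN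

lemma day_lt {N D n x : ℕ} (hD : 1 ≤ D) (hN : 2 ^ D ≤ N) (hn : n < N) (hx : x < N) :
    day N D n x < N := by
  have hDN := D_lt hN
  by_cases h : x ∈ U D n
  · rcases mem_U.1 h with h | ⟨t, h1, h2, h3⟩
    · rw [h, day_self]; omega
    · rw [← h3, day_u h1 h2]; omega
  · have := day_out_lt hD hN hn hx h
    omega

lemma day_inj {N D n x y : ℕ} (hD : 1 ≤ D) (hN : 2 ^ D ≤ N) (hn : n < N) (hx : x < N) (hy : y < N)
    (h : day N D n x = day N D n y) : x = y := by
  have hDN := D_lt hN
  by_cases h1 : x ∈ U D n <;> by_cases h2 : y ∈ U D n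
  · rcases mem_U.1 h1 with h1 | ⟨t, h11, h12, h13⟩ <;> rcases mem_U.1 h2 with h2 | ⟨s, h21, h22, h23⟩
    · rw [h1, h2]
    · rw [h1, ← h23, day_self, day_u h21 h22] at h; omega
    · rw [h2, ← h13, day_self, day_u h11 h12] at h; omega
    · rw [← h23, ← h13, day_u h21 h22, day_u h11 h12] at h
      have : s = t := by omega
      rw [← h13, ← h23, this]
  · have := day_out_lt hD hN hn hy h2
    have := day_in_ge (N := N) hD h1
    omega
  · have := day_out_lt hD hN hn hx h1
    have := day_in_ge (N := N) hD h2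
    omega
  · rw [day_out h1, day_out h2] at h
    rcases lt_trichotomy x y with h3 | h3 | h3
    · have := c_lt h1 h3; omega
    · exact h3
    · have := c_lt h2 h3; omega

/-- the number of left out parties before `i` -/
lemma off {D n i : ℕ} :
    min (Nat.log 2 i) D - 1 ≤ ((range i).filter (· ∈ U D n)).card ∧
      ((range i).filter (· ∈ U D n)).card ≤ min (Nat.log 2 i) D + 1 := by
  constructor
  · rcases Nat.eq_zero_or_pos i with h0 | h0
    · rw [h0]; simp
    calc min (Nat.log 2 i) D - 1 = ((Icc 1 (min (Nat.log 2 i) D - 1)).image (u n)).card := by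
          rw [card_image_of_injective _ (fun a b h => u_inj h), Nat.card_Icc]; omega
      _ ≤ _ := by
          apply card_le_card
          intro x hx
          obtain ⟨t, ht, rfl⟩ := mem_image.1 hx
          rw [mem_Icc] at ht
          have h1 : t + 1 ≤ Nat.log 2 i := by omega
          refine mem_filter.2 ⟨mem_range.2 ?_, mem_U.2 (Or.inr ⟨t, ht.1, by omega, rfl⟩)⟩
          calc u n t < 2 ^ (t + 1) := u_lt n t
            _ ≤ 2 ^ (Nat.log 2 i) := Nat.pow_le_pow_right (by norm_num) h1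
            _ ≤ i := Nat.pow_log_le_self 2 h0.ne'
  · calc ((range i).filter (· ∈ U D n)).card
        ≤ (insert n ((Icc 1 (min (Nat.log 2 i) D)).image (u n))).card := by
          apply card_le_card
          intro x hx
          rw [mem_filter, mem_range] at hx
          rcases mem_U.1 hx.2 with h | ⟨t, h1, h2, h3⟩
          · rw [h]; exact mem_insert_self _ _
          · refine mem_insert_of_mem (mem_image.2 ⟨t, mem_Icc.2 ⟨h1, ?_⟩, h3⟩)
            have h4 : 2 ^ t ≤ i := le_trans (u_ge n t) (by rw [h3]; exact hx.1.le)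
            have h5 : t ≤ Nat.log 2 i := Nat.le_log_of_pow_le (by norm_num) h4
            omega
      _ ≤ ((Icc 1 (min (Nat.log 2 i) D)).image (u n)).card + 1 := card_insert_le _ _
      _ ≤ (Icc 1 (min (Nat.log 2 i) D)).card + 1 := Nat.add_le_add_right card_image_le 1
      _ = _ := by rw [Nat.card_Icc]; omega

/-- no four consecutive parties are left out by the same contract -/
lemma four {D n i : ℕ} (h1 : i + 1 ∈ U D n) (h2 : i + 2 ∈ U D n) (h3 : i + 3 ∈ U D n)
    (h4 : i + 4 ∈ U D n) : False := by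
  rcases mem_U.1 h1 with h1 | ⟨a, a1, a2, a3⟩ <;> rcases mem_U.1 h2 with h2 | ⟨b, b1, b2, b3⟩ <;>
    rcases mem_U.1 h3 with h3 | ⟨c', c1, c2, c3⟩ <;> rcases mem_U.1 h4 with h4 | ⟨d, d1, d2, d3⟩ <;>
    first
      | omega
      | exact u_succ (n := n) (s := a) (t := b) a1 (by omega)
      | exact u_succ (n := n) (s := b) (t := c') b1 (by omega)
      | exact u_succ (n := n) (s := c') (t := d) c1 (by omega)

/-- a set which contains all pairs (day, recipient) of party `i` -/
def T (N D i : ℕ) : Finset (ℕ × ℕ) :=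
  (((Icc (min (Nat.log 2 i) D - 1) (min (Nat.log 2 i) D + 1)) ×ˢ (Icc (i + 1) (i + 4))).image
    fun q => (i - q.1, q.2)) ∪
  (({(N - D - 1, 2), (N - D - 1, 3)} : Finset (ℕ × ℕ)) ∪
  (if Nat.log 2 i + 1 ≤ D - 1 then
    {(N - D + (Nat.log 2 i - 1), i + 2 ^ Nat.log 2 i),
      (N - D + (Nat.log 2 i - 1), i + 2 ^ (Nat.log 2 i + 1))}
  else (range 4).image
    fun k => (N - D + (Nat.log 2 i - 1), i - 2 ^ (D - 1) + 2 ^ (D - 1) * k - 1)))

lemma card_T (N D i : ℕ) : (T N D i).card ≤ 18 := by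
  unfold T
  refine (card_union_le _ _).trans ?_
  have h1 : (((Icc (min (Nat.log 2 i) D - 1) (min (Nat.log 2 i) D + 1)) ×ˢ
      (Icc (i + 1) (i + 4))).image fun q => (i - q.1, q.2)).card ≤ 12 := by
    refine card_image_le.trans ?_
    rw [card_product, Nat.card_Icc, Nat.card_Icc]
    have : min (Nat.log 2 i) D + 1 + 1 - (min (Nat.log 2 i) D - 1) ≤ 3 := by omega
    have h2 : i + 4 + 1 - (i + 1) = 4 := by omega
    rw [h2]
    omega
  have h2 : ∀ s : Finset (ℕ × ℕ), s.card ≤ 4 →
      (({(N - D - 1, 2), (N - D - 1, 3)} : Finset (ℕ × ℕ)) ∪ s).card ≤ 6 := by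
    intro s hs
    refine (card_union_le _ _).trans ?_
    have := card_le_two (a := (N - D - 1, 2)) (b := (N - D - 1, 3))
    omega
  have h3 := h2 (if Nat.log 2 i + 1 ≤ D - 1 then
    {(N - D + (Nat.log 2 i - 1), i + 2 ^ Nat.log 2 i),
      (N - D + (Nat.log 2 i - 1), i + 2 ^ (Nat.log 2 i + 1))}
  else (range 4).image
    fun k => (N - D + (Nat.log 2 i - 1), i - 2 ^ (D - 1) + 2 ^ (D - 1) * k - 1)) (by
      split_ifs
      · exact card_le_two.trans (by norm_num)
      · exact card_image_le.trans (by simp))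
  omega

lemma main {N D n i j : ℕ} (hD : 2 ≤ D) (hN : 2 ^ D ≤ N) (hN' : N < 2 ^ (D + 1)) (hn : n < N)
    (hi : i < N) (hj : j < N) (h : day N D n j = day N D n i + 1) :
    (day N D n i, j) ∈ T N D i := by
  have hDN := D_lt hN
  unfold T
  by_cases h1 : i ∈ U D n <;> by_cases h2 : j ∈ U D n
  · apply mem_union_right
    apply mem_union_right
    rcases mem_U.1 h1 with h1 | ⟨t, h11, h12, h13⟩
    · rw [h1, day_self] at h
      have := day_lt (by omega) hN hn hj (D := D)
      omega
    have hlog : Nat.log 2 i = t := by rw [← h13, log_u]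
    have hdi : day N D n i = N - D + (t - 1) := by rw [← h13, day_u h11 h12]
    rcases mem_U.1 h2 with h2 | ⟨s, h21, h22, h23⟩
    · -- the last step
      rw [hdi, h2, day_self] at h
      have ht : t = D - 1 := by omega
      rw [if_neg (by omega), hlog, hdi, mem_image]
      refine ⟨(n + 1) / 2 ^ (D - 1), mem_range.2 ?_, ?_⟩
      · rw [Nat.div_lt_iff_lt_mul (by positivity)]
        have : 2 ^ (D + 1) = 4 * 2 ^ (D - 1) := by
          have : D + 1 = (D - 1) + 2 := by omega
          rw [this, pow_add]; ring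
        omega
      · rw [h2, ← h13, ht]
        have h3 := Nat.mod_add_div (n + 1) (2 ^ (D - 1))
        have h4 : u n (D - 1) - 2 ^ (D - 1) = (n + 1) % 2 ^ (D - 1) := by unfold u; omega
        rw [h4, h3]
        simp
    · rw [hdi, ← h23, day_u h21 h22] at h
      have hs : s = t + 1 := by omega
      rw [hlog, if_pos (by omega), hdi]
      have h3 : (n + 1) % 2 ^ (t + 1) = (n + 1) % 2 ^ t + 2 ^ t * ((n + 1) / 2 ^ t % 2) := by
        rw [pow_succ, Nat.mod_mul]
      have h4 : (n + 1) / 2 ^ t % 2 = 0 ∨ (n + 1) / 2 ^ t % 2 = 1 := by omega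
      have h5 : j = 2 ^ (t + 1) + (n + 1) % 2 ^ (t + 1) := by rw [← h23, hs]; rfl
      have h6 : i = 2 ^ t + (n + 1) % 2 ^ t := by rw [← h13]; rfl
      rw [mem_insert, mem_singleton]
      rcases h4 with h4 | h4
      · left
        rw [h4] at h3
        have : j = i + 2 ^ t := by rw [h5, h6, h3, pow_succ]; ring
        rw [this]
      · right
        rw [h4] at h3
        have : j = i + 2 ^ (t + 1) := by rw [h5, h6, h3, pow_succ]; ring
        rw [this]
  · have := day_out_lt (by omega) hN hn hj h2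
    have := day_in_ge (N := N) (by omega) h1
    omega
  · apply mem_union_right
    apply mem_union_left
    have h3 := day_out_lt (by omega) hN hn hi h1
    have h4 := day_in_ge (N := N) (by omega) h2
    have h5 : day N D n i = N - D - 1 := by omega
    rw [h5] at h ⊢
    rcases mem_U.1 h2 with h2 | ⟨s, h21, h22, h23⟩
    · rw [h2, day_self] at h; omega
    · rw [← h23, day_u h21 h22] at h
      have hs : s = 1 := by omega
      rw [← h23, hs]
      have h6 := u_ge n 1
      have h7 := u_lt n 1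
      norm_num at h6 h7
      have h8 : u n 1 = 2 ∨ u n 1 = 3 := by omega
      rw [mem_insert, mem_singleton]
      rcases h8 with h8 | h8 <;> rw [h8] <;> simp
  · apply mem_union_left
    rw [day_out h1, day_out h2] at h
    have h3 : i < j := by
      by_contra hcon
      have := c_mono (D := D) (n := n) (not_lt.1 hcon)
      omega
    have h4 : ∀ y, i < y → y < j → y ∈ U D n := by
      intro y h5 h6
      by_contra hcon
      have := c_lt h1 h5
      have := c_lt hcon h6
      omega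
    have h5 : j ≤ i + 4 := by
      by_contra hcon
      exact four (h4 (i + 1) (by omega) (by omega)) (h4 (i + 2) (by omega) (by omega))
        (h4 (i + 3) (by omega) (by omega)) (h4 (i + 4) (by omega) (by omega))
    have h6 := off (D := D) (n := n) (i := i)
    have h7 := c_add (D := D) (n := n) (x := i)
    rw [day_out h1]
    refine mem_image.2 ⟨(((range i).filter (· ∈ U D n)).card, j), ?_, ?_⟩
    · exact mem_product.2 ⟨mem_Icc.2 h6, mem_Icc.2 ⟨h3, h5⟩⟩
    · simp only [Prod.mk.injEq, and_true]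
      omega

/-- For `N ≥ 4` parties there is a fast protocol in which every party pays at most `18`. -/
lemma exists_four {N : ℕ} (hN4 : 4 ≤ N) :
    ∃ P : Fin N → Equiv.Perm (Fin N), IsFast P ∧ ∀ i, cost P i ≤ 18 := by
  set D := Nat.log 2 N with hDdef
  have hN : 2 ^ D ≤ N := Nat.pow_log_le_self 2 (by omega)
  have hN' : N < 2 ^ (D + 1) := Nat.lt_pow_succ_log_self (by norm_num) N
  have hD : 2 ≤ D := Nat.le_log_of_pow_le (by norm_num) (by norm_num; exact hN4)
  have hbij : ∀ n : Fin N, Function.Bijective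
      (fun i : Fin N => (⟨day N D n i, day_lt (by omega) hN n.2 i.2⟩ : Fin N)) := by
    intro n
    refine Finite.injective_iff_bijective.1 fun x y h => ?_
    have h1 : day N D n x = day N D n y := congrArg Fin.val h
    exact Fin.ext (day_inj (by omega) hN n.2 x.2 y.2 h1)
  have hday : ∀ n d i : Fin N, (Equiv.ofBijective _ (hbij n)).symm d = i ↔
      day N D n i = d := by
    intro n d i
    rw [Equiv.symm_apply_eq, Fin.ext_iff]
    exact eq_comm
  refine ⟨fun n => (Equiv.ofBijective _ (hbij n)).symm, ?_, ?_⟩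
  · intro n d hd
    rw [hday, day_self, hd]
  · intro i
    unfold cost
    have hinj : Function.Injective (fun p : Fin N × Fin N => ((p.1 : ℕ), (p.2 : ℕ))) := by
      rintro ⟨a, b⟩ ⟨a', b'⟩ h
      simp only [Prod.mk.injEq] at h
      exact Prod.ext (Fin.ext h.1) (Fin.ext h.2)
    rw [← Set.ncard_image_of_injective _ hinj]
    refine le_trans (Set.ncard_le_ncard ?_ (T N D i).finite_toSet) ?_
    · rintro _ ⟨⟨d, j⟩, ⟨h, n, h1, h2⟩, rfl⟩
      rw [hday] at h1 h2
      simp only at h1 h2 h ⊢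
      have := main hD hN hN' n.2 i.2 j.2 (by rw [h1, h2])
      rw [h1] at this
      exact this
    · rw [Set.ncard_coe_finset]
      exact card_T N D i

/-- For `N ≥ 3` parties every fast protocol has a party which pays at least `2`. -/
lemma lower {N : ℕ} (hN : 3 ≤ N) (P : Fin N → Equiv.Perm (Fin N)) (hP : IsFast P) :
    ∃ i, 2 ≤ cost P i := by
  by_contra hcon
  push Not at hcon
  have hfin : ∀ i, ({p : Fin N × Fin N | ∃ (h : (p.1 : ℕ) + 1 < N) (n : Fin N),
      P n p.1 = i ∧ P n ⟨(p.1 : ℕ) + 1, h⟩ = p.2}).Finite := fun i => Set.toFinite _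
  have hone : ∀ i : Fin N, ∀ p q : Fin N × Fin N,
      (∃ (h : (p.1 : ℕ) + 1 < N) (n : Fin N), P n p.1 = i ∧ P n ⟨(p.1 : ℕ) + 1, h⟩ = p.2) →
      (∃ (h : (q.1 : ℕ) + 1 < N) (n : Fin N), P n q.1 = i ∧ P n ⟨(q.1 : ℕ) + 1, h⟩ = q.2) →
      p = q := by
    intro i p q hp hq
    have h1 : cost P i ≤ 1 := by have := hcon i; omega
    unfold cost at h1
    exact (Set.ncard_le_one (hfin i)).1 h1 p hp q hq
  let e : Fin N := ⟨N - 2, by omega⟩
  have he : (e : ℕ) + 1 < N := by simp only [e]; omega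
  have hlast : ∀ n : Fin N, P n ⟨(e : ℕ) + 1, he⟩ = n := by
    intro n
    apply hP
    simp only [e]
    omega
  have hinj : Function.Injective fun n : Fin N => P n e := by
    intro n n' h
    have := hone (P n e) (e, n) (e, n') ⟨he, n, rfl, hlast n⟩ ⟨he, n', h.symm, hlast n'⟩
    exact congrArg Prod.snd this
  obtain ⟨n, hn⟩ := (Finite.injective_iff_surjective.1 hinj) (P e ⟨0, by omega⟩)
  have h0 : (((⟨0, by omega⟩ : Fin N) : ℕ)) + 1 < N := by simp; omega
  have := hone (P e ⟨0, by omega⟩) (e, n) (⟨0, by omega⟩, P e ⟨0 + 1, h0⟩)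
    ⟨he, n, hn, hlast n⟩ ⟨h0, e, rfl, rfl⟩
  have h2 := congrArg (fun q : Fin N × Fin N => (q.1 : ℕ)) this
  simp only [e] at h2
  omega

/-- **Fast contract-signing protocols with bounded individual cost.**
(1) For every `N ≥ 2` there is a fast protocol for `N` parties in which every party pays at most
`18`.
(2) `2 ≤ M(N) ≤ 18` for every `N ≥ 3` (and `M(2) ≤ 18`), i.e. `M(N) = Θ(1)`; in every fast protocol
for `N ≥ 3` parties some party pays at least `2`.
(3) No lower bound `c N` with `c > 0` holds. -/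
theorem result :
    (∀ N : ℕ, 2 ≤ N → M N ≤ 18 ∧
      ∃ P : Fin N → Equiv.Perm (Fin N), IsFast P ∧ ∀ i, cost P i ≤ 18) ∧
    (∀ N : ℕ, 3 ≤ N → 2 ≤ M N ∧
      ∀ P : Fin N → Equiv.Perm (Fin N), IsFast P → ∃ i, 2 ≤ cost P i) ∧
    (¬ ∃ c : ℝ, 0 < c ∧ ∀ N : ℕ, 2 ≤ N → ∀ P : Fin N → Equiv.Perm (Fin N), IsFast P →
      ∃ i, c * N ≤ (cost P i : ℝ)) := by
  have h1 : ∀ N : ℕ, 2 ≤ N →
      ∃ P : Fin N → Equiv.Perm (Fin N), IsFast P ∧ ∀ i, cost P i ≤ 18 := by
    intro N hN
    rcases Nat.lt_or_ge N 4 with h | h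
    · refine ⟨fun n => Equiv.swap ⟨N - 1, by omega⟩ n, ?_, ?_⟩
      · intro n d hd
        have : d = ⟨N - 1, by omega⟩ := Fin.ext hd
        rw [this, Equiv.swap_apply_left]
      · intro i
        unfold cost
        refine le_trans (Set.ncard_le_ncard (Set.subset_univ _) (Set.toFinite _)) ?_
        rw [Set.ncard_univ, Nat.card_prod, Nat.card_eq_fintype_card, Fintype.card_fin]
        have : N = 2 ∨ N = 3 := by omega
        rcases this with rfl | rfl <;> norm_num
    · exact exists_four h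
  refine ⟨fun N hN => ⟨Nat.sInf_le (h1 N hN), h1 N hN⟩, fun N hN => ⟨?_, lower hN⟩, ?_⟩
  · have hne : {m : ℕ | ∃ P : Fin N → Equiv.Perm (Fin N), IsFast P ∧ ∀ i, cost P i ≤ m}.Nonempty :=
      ⟨18, h1 N (by omega)⟩
    obtain ⟨P, hP', hP⟩ := Nat.sInf_mem hne
    obtain ⟨i, hi⟩ := lower hN P hP'
    exact hi.trans (hP i)
  · rintro ⟨c, hc, h⟩
    obtain ⟨K, hK⟩ := exists_nat_gt (18 / c)
    obtain ⟨P, hP, hP'⟩ := h1 (K + 2) (by omega)
    obtain ⟨i, hi⟩ := h (K + 2) (by omega) P hP
    have h2 : (cost P i : ℝ) ≤ 18 := by exact_mod_cast hP' i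
    have h3 : 18 < c * K := by
      rw [div_lt_iff₀ hc] at hK
      linarith
    push_cast at hi
    nlinarith

end Pool.Agent.Results.MP_e6c168_lc.BoundedCost
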